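import Mathlib
import Pool.Agent.Y940.PDd.Gen

/-!
# Popular differences for three-point matrix patterns in every dimension

For integer `d × d` matrices `M₁, M₂` such that at least two of `M₁, M₂, M₂ - M₁` are invertible
over `ℚ` and the third one is nonzero, every subset `A` of `[N]^d` with at least `α N^d` elements has
a positive proportion (`≥ c N^d`) of differences `n`, all of sup norm at most `δ N`, with more than
`(α³ - ε) N^d` copies of `x, x + M₁ n, x + M₂ n` in `A`.  The case `d = 2`, `rank M₁ = 2`,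
`rank M₂ = 1`, `rank (M₂ - M₁) = 2` is the question.
-/

set_option autoImplicit false

namespace Pool.Agent.Results.MP_952e97_co.AllDimensions

/-- The number of `x ∈ A` with `x + M₁ n ∈ A` and `x + M₂ n ∈ A`. -/
def copies {d : ℕ} (M₁ M₂ : Matrix (Fin d) (Fin d) ℤ) (A : Finset (Fin d → ℤ))
    (n : Fin d → ℤ) : ℕ :=
  (A.filter fun x => x + M₁.mulVec n ∈ A ∧ x + M₂.mulVec n ∈ A).card

/-- Positive proportion of popular differences in every dimension, when two of the three matrices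
`M₁, M₂, M₂ - M₁` are invertible and the third is nonzero. -/
theorem result (d : ℕ) (M₁ M₂ : Matrix (Fin d) (Fin d) ℤ) (h₁ : M₁ ≠ 0) (h₂ : M₂ ≠ 0)
    (h₃ : M₁ ≠ M₂)
    (h : (M₁.det ≠ 0 ∧ M₂.det ≠ 0) ∨ (M₁.det ≠ 0 ∧ (M₂ - M₁).det ≠ 0) ∨
      (M₂.det ≠ 0 ∧ (M₂ - M₁).det ≠ 0))
    (α ε δ : ℝ) (hα : 0 < α) (hε : 0 < ε) (hδ : 0 < δ) :
    ∃ c : ℝ, 0 < c ∧ ∃ N₀ : ℕ, ∀ N : ℕ, N₀ ≤ N → ∀ A : Finset (Fin d → ℤ),
      (∀ x ∈ A, ∀ i, 1 ≤ x i ∧ x i ≤ (N : ℤ)) → α * (N : ℝ) ^ d ≤ (A.card : ℝ) →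
      ∃ P : Finset (Fin d → ℤ), c * (N : ℝ) ^ d ≤ (P.card : ℝ) ∧ ∀ n ∈ P,
        (∀ i, |(n i : ℝ)| ≤ δ * N) ∧ M₁.mulVec n ≠ 0 ∧ M₂.mulVec n ≠ 0 ∧
        M₁.mulVec n ≠ M₂.mulVec n ∧
        (α ^ 3 - ε) * (N : ℝ) ^ d < (copies M₁ M₂ A n : ℝ) :=
  Pool.Agent.Y940.PDd.good_all M₁ M₂ h₁ h₂ h₃ h α ε δ hα hε hδ

end Pool.Agent.Results.MP_952e97_co.AllDimensions
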